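import Mathlib

/-! A group that is residually finite and residually soluble but has no nontrivial finite soluble
quotient: the group generated by the elementary 3 by 3 matrices with entries in the ideal of
polynomials vanishing at 0 inside the ring of rational polynomials `f` with `f (p+1)` being
`p`-integral for every prime `p`. -/

open Matrix Polynomial

namespace Pool.Agent.Results.MP_92b5af_al.Exists

section general
variable {R : Type} [CommRing R] (I : Ideal R)

def gens : Set (SpecialLinearGroup (Fin 3) R) :=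
  {g | ∃ (i j : Fin 3) (h : i ≠ j) (f : R), f ∈ I ∧ g = SpecialLinearGroup.transvection h f}

def Gam : Subgroup (SpecialLinearGroup (Fin 3) R) := Subgroup.closure (gens I)

def K (k : ℕ) : Subgroup (SpecialLinearGroup (Fin 3) R) :=
  (SpecialLinearGroup.map (Ideal.Quotient.mk (I ^ k))).ker

lemma mem_map_ker {S : Type} [CommRing S] (φ : R →+* S) (g : SpecialLinearGroup (Fin 3) R) :
    SpecialLinearGroup.map φ g = 1 ↔ ∀ i j, φ ((g.1 - 1) i j) = 0 := by
  constructor
  · intro h i j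
    have := congrArg (fun M : SpecialLinearGroup (Fin 3) S => M.1 i j) h
    simp only [SpecialLinearGroup.map_apply_coe, RingHom.mapMatrix_apply, Matrix.map_apply,
      SpecialLinearGroup.coe_one] at this
    rw [Matrix.sub_apply, map_sub, this]
    by_cases hij : i = j <;> simp [Matrix.one_apply, hij]
  · intro h
    ext i j
    have := h i j
    rw [Matrix.sub_apply, map_sub, sub_eq_zero] at this
    simp only [SpecialLinearGroup.map_apply_coe, RingHom.mapMatrix_apply, Matrix.map_apply,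
      SpecialLinearGroup.coe_one]
    rw [this]
    by_cases hij : i = j <;> simp [Matrix.one_apply, hij]

lemma mem_K (k : ℕ) (g : SpecialLinearGroup (Fin 3) R) :
    g ∈ K I k ↔ ∀ i j, (g.1 - 1) i j ∈ I ^ k := by
  simp only [K, MonoidHom.mem_ker, mem_map_ker, Ideal.Quotient.eq_zero_iff_mem]

lemma comm_K (k : ℕ) : ⁅K I (k + 1), K I (k + 1)⁆ ≤ K I (k + 2) := by
  rw [Subgroup.commutator_le]
  intro g hg h hh
  rw [mem_K] at hg hh
  have key : ∀ a b : Matrix (Fin 3) (Fin 3) R, (∀ i j, a i j ∈ I ^ (k + 1)) →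
      (∀ i j, b i j ∈ I ^ (k + 1)) → ∀ i j, (a * b) i j ∈ I ^ (k + 2) := by
    intro a b ha hb i j
    rw [Matrix.mul_apply]
    refine Ideal.sum_mem _ fun l _ => ?_
    have : a i l * b l j ∈ I ^ (k + 1) * I ^ (k + 1) := Ideal.mul_mem_mul (ha i l) (hb l j)
    rw [← pow_add] at this
    exact Ideal.pow_le_pow_right (by omega) this
  have hc : SpecialLinearGroup.map (Ideal.Quotient.mk (I ^ (k + 2))) (g * h) =
      SpecialLinearGroup.map (Ideal.Quotient.mk (I ^ (k + 2))) (h * g) := by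
    ext i j
    simp only [SpecialLinearGroup.map_apply_coe, RingHom.mapMatrix_apply, Matrix.map_apply,
      SpecialLinearGroup.coe_mul]
    rw [Ideal.Quotient.eq]
    have e : g.1 * h.1 - h.1 * g.1 = (g.1 - 1) * (h.1 - 1) - (h.1 - 1) * (g.1 - 1) := by
      noncomm_ring
    have := congrFun (congrFun e i) j
    rw [Matrix.sub_apply] at this
    change (g.1 * h.1) i j - (h.1 * g.1) i j ∈ _
    rw [this, Matrix.sub_apply]
    exact Ideal.sub_mem _ (key _ _ hg hh i j) (key _ _ hh hg i j)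
  rw [K, MonoidHom.mem_ker, commutatorElement_def]
  simp only [map_mul, map_inv] at hc ⊢
  rw [hc]; group

lemma Gam_le : Gam I ≤ K I 1 := by
  rw [Gam, Subgroup.closure_le]
  rintro g ⟨i, j, h, f, hf, rfl⟩
  rw [SetLike.mem_coe, mem_K]
  intro a b
  rw [SpecialLinearGroup.transvection_coe, add_sub_cancel_left, pow_one, Matrix.single_apply]
  split_ifs
  · exact hf
  · exact I.zero_mem

lemma derived_le (n : ℕ) : (derivedSeries (Gam I) n).map (Gam I).subtype ≤ K I (n + 1) := by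
  induction n with
  | zero =>
    rw [derivedSeries_zero, ← MonoidHom.range_eq_map, Subgroup.range_subtype]
    exact Gam_le I
  | succ n ih =>
    rw [derivedSeries_succ, Subgroup.map_commutator]
    exact (Subgroup.commutator_mono ih ih).trans (comm_K I n)

lemma ne_entry {g : SpecialLinearGroup (Fin 3) R} (hg : g ≠ 1) : ∃ i j, (g.1 - 1) i j ≠ 0 := by
  by_contra h
  push Not at h
  apply hg
  apply Subtype.ext
  change g.1 = 1
  rw [← sub_eq_zero]
  ext i j
  exact h i j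

lemma res_sol (hI : ∀ f : R, f ≠ 0 → ∃ k, f ∉ I ^ (k + 1)) (g : Gam I) (hg : g ≠ 1) :
    ∃ N : Subgroup (Gam I), ∃ _ : N.Normal, g ∉ N ∧ Group.IsSolvable (Gam I ⧸ N) := by
  obtain ⟨i, j, h⟩ := ne_entry (g := g.1) (fun h => hg (Subtype.ext h))
  obtain ⟨k, hk⟩ := hI _ h
  refine ⟨derivedSeries (Gam I) k, derivedSeries_normal _ _, fun hm => hk ?_, ⟨⟨k, ?_⟩⟩⟩
  · exact (mem_K I _ _).1 (derived_le I k ⟨g, hm, rfl⟩) i j
  · haveI := derivedSeries_normal (Gam I) k
    rw [← map_derivedSeries_eq (QuotientGroup.mk'_surjective (derivedSeries (Gam I) k)) k,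
      Subgroup.map_eq_bot_iff, QuotientGroup.ker_mk']

lemma res_fin (hR : ∀ f : R, f ≠ 0 → ∃ m : ℕ, m ≠ 0 ∧ ∃ φ : R →+* ZMod m, φ f ≠ 0)
    (g : Gam I) (hg : g ≠ 1) :
    ∃ N : Subgroup (Gam I), ∃ _ : N.Normal, g ∉ N ∧ Finite (Gam I ⧸ N) := by
  obtain ⟨i, j, h⟩ := ne_entry (g := g.1) (fun h => hg (Subtype.ext h))
  obtain ⟨m, hm, φ, hφ⟩ := hR _ h
  haveI : NeZero m := ⟨hm⟩
  let ψ : Gam I →* SpecialLinearGroup (Fin 3) (ZMod m) :=
    (SpecialLinearGroup.map φ).comp (Gam I).subtype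
  refine ⟨ψ.ker, inferInstance, fun hk => hφ ?_, ?_⟩
  · exact (mem_map_ker φ g.1).1 hk i j
  · exact Finite.of_injective _ (QuotientGroup.kerLift_injective ψ)

def el {i j : Fin 3} (h : i ≠ j) (f : R) (hf : f ∈ I) : Gam I :=
  ⟨SpecialLinearGroup.transvection h f, Subgroup.subset_closure ⟨i, j, h, f, hf, rfl⟩⟩

lemma el_add {i j : Fin 3} (h : i ≠ j) (f g : R) (hf : f ∈ I) (hg : g ∈ I) :
    el I h (f + g) (I.add_mem hf hg) = el I h f hf * el I h g hg :=
  Subtype.ext (SpecialLinearGroup.transvection_add h f g)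

lemma el_nsmul {i j : Fin 3} (h : i ≠ j) (f : R) (hf : f ∈ I) (n : ℕ) :
    el I h ((n : R) * f) (I.mul_mem_left _ hf) = el I h f hf ^ n := by
  induction n with
  | zero => apply Subtype.ext; simp [el]
  | succ n ih =>
    rw [pow_succ, ← ih, ← el_add]
    congr 1
    push_cast; ring

lemma el_comm {i j k : Fin 3} (hij : i ≠ j) (hik : i ≠ k) (hkj : k ≠ j) (a b : R) (ha : a ∈ I)
    (hb : b ∈ I) : el I hik a ha * el I hkj b hb =
      el I hij (a * b) (I.mul_mem_left _ hb) * el I hkj b hb * el I hik a ha := by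
  apply Subtype.ext
  apply Subtype.ext
  change (1 + single i k a) * (1 + single k j b) =
    (1 + single i j (a * b)) * (1 + single k j b) * (1 + single i k a)
  simp only [mul_add, add_mul, mul_one, one_mul,
    Matrix.single_mul_single_same, Matrix.single_mul_single_of_ne _ _ _ _ hij.symm,
    Matrix.single_mul_single_of_ne _ _ _ _ hkj.symm, zero_mul, add_zero]
  abel

lemma no_fin_sol (hI : ∀ f ∈ I, ∀ l : ℕ, l.Prime → ∃ a ∈ I, ∃ b ∈ I, ∃ u ∈ I, f = a * b + l * u)
    (N : Subgroup (Gam I)) [N.Normal] [Finite (Gam I ⧸ N)] [Group.IsSolvable (Gam I ⧸ N)] :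
    N = ⊤ := by
  let ψ : Gam I →* Abelianization (Gam I ⧸ N) := Abelianization.of.comp (QuotientGroup.mk' N)
  have h1 : ∀ {i j : Fin 3} (h : i ≠ j) (m : ℕ), m ≠ 0 → ∀ f (hf : f ∈ I), ∃ u, ∃ hu : u ∈ I,
      ψ (el I h f hf) = ψ (el I h u hu) ^ m := by
    intro i j h m
    induction m using induction_on_primes with
    | zero => intro h; exact absurd rfl h
    | one => intro _ f hf; exact ⟨f, hf, by simp⟩
    | prime_mul p a hp ih =>
      intro hpa f hf
      obtain ⟨x, hx, y, hy, u, hu, rfl⟩ := hI f hf p hp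
      obtain ⟨v, hv, e⟩ := ih (right_ne_zero_of_mul hpa) u hu
      refine ⟨v, hv, ?_⟩
      obtain ⟨k, hik, hkj⟩ : ∃ k : Fin 3, i ≠ k ∧ k ≠ j :=
        (by decide : ∀ i j : Fin 3, ∃ k : Fin 3, i ≠ k ∧ k ≠ j) i j
      have c := congrArg ψ (el_comm I h hik hkj x y hx hy)
      simp only [map_mul] at c
      have c2 : ψ (el I h (x * y) (I.mul_mem_left _ hy)) = 1 := by
        rw [mul_assoc, mul_comm (ψ (el I hkj y hy))] at c
        exact (mul_eq_right.1 c.symm)
      rw [el_add I h _ _ (I.mul_mem_left _ hy) (I.mul_mem_left _ hu), map_mul, c2, one_mul,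
        el_nsmul I h u hu, map_pow, e, ← pow_mul, mul_comm]
  haveI : Finite (Abelianization (Gam I ⧸ N)) :=
    Finite.of_surjective _ (QuotientGroup.mk'_surjective (commutator (Gam I ⧸ N)))
  have h2 : ∀ g : Gam I, ψ g = 1 := by
    rintro ⟨g, hg⟩
    induction hg using Subgroup.closure_induction with
    | mem x hx =>
      obtain ⟨i, j, h, f, hf, rfl⟩ := hx
      obtain ⟨u, hu, e⟩ := h1 h (Nat.card (Abelianization (Gam I ⧸ N))) Nat.card_pos.ne' f hf
      rw [pow_card_eq_one'] at e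
      exact e
    | one => exact map_one ψ
    | mul x y hx hy ihx ihy =>
      have := map_mul ψ ⟨x, hx⟩ ⟨y, hy⟩
      rw [ihx, ihy, one_mul] at this
      exact this
    | inv x hx ih =>
      have := map_inv ψ ⟨x, hx⟩
      rw [ih, inv_one] at this
      exact this
  by_contra hN
  haveI : Nontrivial (Gam I ⧸ N) := QuotientGroup.nontrivial_iff.2 hN
  have h3 := Group.IsSolvable.commutator_lt_top_of_nontrivial (Gam I ⧸ N)
  apply h3.ne
  rw [eq_top_iff]
  intro q _
  obtain ⟨g, rfl⟩ := QuotientGroup.mk'_surjective N q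
  have := h2 g
  rw [← Abelianization.ker_of]
  exact this
end general

/-- rational polynomials whose value at `p + 1` is `p`-integral for every prime `p` -/
noncomputable def RR : Subring ℚ[X] where
  carrier := {f | ∀ (p : ℕ) [Fact p.Prime], ‖((f.eval ((p : ℚ) + 1) : ℚ) : ℚ_[p])‖ ≤ 1}
  mul_mem' := by
    intro a b ha hb p _
    rw [eval_mul, Rat.cast_mul, norm_mul]
    exact mul_le_one₀ (ha p) (norm_nonneg _) (hb p)
  one_mem' := by intro p _; simp
  add_mem' := by
    intro a b ha hb p _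
    rw [eval_add, Rat.cast_add]
    exact (Padic.nonarchimedean _ _).trans (max_le (ha p) (hb p))
  zero_mem' := by intro p _; simp
  neg_mem' := by
    intro a ha p _
    rw [eval_neg, Rat.cast_neg, norm_neg]
    exact ha p

noncomputable def ev (p : ℕ) [Fact p.Prime] : RR →+* ℤ_[p] where
  toFun f := ⟨((f.1.eval ((p : ℚ) + 1) : ℚ) : ℚ_[p]), f.2 p⟩
  map_one' := by apply Subtype.ext; simp
  map_mul' a b := by apply Subtype.ext; simp
  map_zero' := by apply Subtype.ext; simp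
  map_add' a b := by apply Subtype.ext; simp

noncomputable def II : Ideal RR := (Ideal.span {(X : ℚ[X])}).comap RR.subtype

lemma mem_II (f : RR) : f ∈ II ↔ X ∣ f.1 := by
  simp [II, Ideal.mem_span_singleton]

lemma hsep (f : RR) (hf : f ≠ 0) : ∃ k, f ∉ II ^ (k + 1) := by
  refine ⟨f.1.natDegree, fun h => ?_⟩
  have h1 : f ∈ ((Ideal.span {(X : ℚ[X])}) ^ (f.1.natDegree + 1)).comap RR.subtype :=
    Ideal.le_comap_pow _ _ h
  rw [Ideal.mem_comap, Ideal.span_singleton_pow, Ideal.mem_span_singleton] at h1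
  have h0 : f.1 ≠ 0 := fun e => hf (Subtype.ext e)
  have := natDegree_le_of_dvd h1 h0
  rw [natDegree_X_pow] at this
  exact absurd this (Nat.not_succ_le_self _)

lemma hfin (f : RR) (hf : f ≠ 0) : ∃ m : ℕ, m ≠ 0 ∧ ∃ φ : RR →+* ZMod m, φ f ≠ 0 := by
  have h0 : f.1 ≠ 0 := fun e => hf (Subtype.ext e)
  have : ∃ p : ℕ, p.Prime ∧ f.1.eval ((p : ℚ) + 1) ≠ 0 := by
    by_contra h
    push Not at h
    apply h0
    apply eq_zero_of_infinite_isRoot
    have hi : Set.Infinite ((fun p : ℕ => (p : ℚ) + 1) '' {p | p.Prime}) :=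
      Nat.infinite_setOf_prime.image (fun a _ b _ e => by simpa using e)
    refine hi.mono ?_
    rintro _ ⟨p, hp, rfl⟩
    exact h p hp
  obtain ⟨p, hp, h⟩ := this
  haveI : Fact p.Prime := ⟨hp⟩
  have h1 : ev p f ≠ 0 := by
    intro e
    have := congrArg Subtype.val e
    simp only [ev, RingHom.coe_mk, MonoidHom.coe_mk, OneHom.coe_mk, PadicInt.coe_zero,
      Rat.cast_eq_zero] at this
    exact h this
  have : ∃ n, PadicInt.toZModPow n (ev p f) ≠ 0 := by
    by_contra h2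
    push Not at h2
    exact h1 (PadicInt.ext_of_toZModPow.1 fun n => by rw [h2 n, map_zero])
  obtain ⟨n, hn⟩ := this
  exact ⟨p ^ n, pow_ne_zero _ hp.ne_zero, (PadicInt.toZModPow n).comp (ev p), hn⟩

lemma X_mem : (X : ℚ[X]) ∈ RR := by
  intro p _
  have := Padic.norm_int_le_one (p := p) ((p : ℤ) + 1)
  simpa using this

lemma hdiv (f : RR) (hf : f ∈ II) (l : ℕ) (hl : l.Prime) :
    ∃ a ∈ II, ∃ b ∈ II, ∃ u ∈ II, f = a * b + l * u := by
  have hl0 : (l : ℚ) ≠ 0 := by exact_mod_cast hl.ne_zero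
  have hu : f.1 * (1 - X) * C ((l : ℚ)⁻¹) ∈ RR := by
    intro p hp
    have e : (f.1 * (1 - X) * C ((l : ℚ)⁻¹)).eval ((p : ℚ) + 1) =
        f.1.eval ((p : ℚ) + 1) * (-((p : ℚ) * (l : ℚ)⁻¹)) := by
      simp; ring
    rw [e, Rat.cast_mul, norm_mul]
    refine mul_le_one₀ (f.2 p) (norm_nonneg _) ?_
    rw [Rat.cast_neg, norm_neg]
    by_cases h : p = l
    · subst h
      rw [mul_inv_cancel₀ hl0]; simp
    · have h1 : ‖((l : ℕ) : ℚ_[p])‖ = 1 := by
        rw [Padic.norm_natCast_eq_one_iff]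
        exact (Nat.coprime_primes hp.out hl).2 h
      have h2 := Padic.norm_int_le_one (p := p) (p : ℤ)
      push_cast
      rw [norm_mul, norm_inv, h1]
      simpa using h2
  refine ⟨f, hf, ⟨X, X_mem⟩, (mem_II _).2 dvd_rfl, ⟨_, hu⟩, (mem_II _).2 ?_, ?_⟩
  · exact (((mem_II _).1 hf).mul_right _).mul_right _
  · apply Subtype.ext
    have : (l : ℚ[X]) * C ((l : ℚ)⁻¹) = 1 := by
      rw [← map_natCast C l, ← C_mul, mul_inv_cancel₀ hl0, C_1]
    push_cast
    linear_combination (-(f.1 * (1 - X))) * this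

theorem result : ∃ (Γ : Type) (_ : Group Γ),
    (∀ g : Γ, g ≠ 1 → ∃ N : Subgroup Γ, ∃ _ : N.Normal, g ∉ N ∧ Finite (Γ ⧸ N)) ∧
    (∀ g : Γ, g ≠ 1 → ∃ N : Subgroup Γ, ∃ _ : N.Normal, g ∉ N ∧ Group.IsSolvable (Γ ⧸ N)) ∧
    ¬ (∀ g : Γ, g ≠ 1 → ∃ N : Subgroup Γ, ∃ _ : N.Normal,
        g ∉ N ∧ Finite (Γ ⧸ N) ∧ Group.IsSolvable (Γ ⧸ N)) := by
  refine ⟨Gam II, inferInstance, res_fin II hfin, res_sol II hsep, fun h => ?_⟩
  have h01 : (0 : Fin 3) ≠ 1 := by decide
  obtain ⟨N, hN, hg, h1, h2⟩ := h (el II h01 ⟨X, X_mem⟩ ((mem_II _).2 dvd_rfl)) (by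
    intro e
    have := congrArg (fun g : Gam II => (g.1.1 0 1).1) e
    simp [el, SpecialLinearGroup.transvection_coe] at this)
  rw [no_fin_sol II hdiv N] at hg
  exact hg (Subgroup.mem_top _)

end Pool.Agent.Results.MP_92b5af_al.Exists
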